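import Mathlib
import Pool.Agent.H20.FinSyl

namespace Pool.Agent.Results.MP_055c61_al.Quot

theorem result (p : ℕ) (hp : p.Prime) (Ω : Type*) (G : Subgroup (Equiv.Perm Ω))
    (hfin : ∀ g ∈ G, {x : Ω | g x ≠ x}.Finite)
    (_hG : ∀ x y : Ω, ∃ g ∈ G, g x = y)
    (N : Subgroup G) [N.Normal] (S : Sylow p G)
    (hS : ∀ x y : Ω, ∃ s : G, s ∈ S ∧ (s : Equiv.Perm Ω) x = y) :
    ∃ P : Sylow p (G ⧸ N),
      (P : Subgroup (G ⧸ N)) = (S : Subgroup G).map (QuotientGroup.mk' N) := by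
  haveI : Fact p.Prime := ⟨hp⟩
  exact Pool.Agent.H20.FinSyl.quot (Ω := Ω) (fun g => hfin g.1 g.2) S hS N

end Pool.Agent.Results.MP_055c61_al.Quot
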